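import Mathlib
import Pool.Agent.W805.LR.Stm5

set_option autoImplicit false

namespace Pool.Agent.W475.PD.FA

open Finset Equiv
open Pool.Agent.W805.PD

section avg

theorem uavg_equiv {A B : Type} [Fintype A] [Fintype B] (e : A ≃ B) (F : B → ℝ) :
    uavg (fun a => F (e a)) = uavg F := by
  unfold uavg
  rw [Fintype.card_congr e, e.sum_comp]

theorem uavg_prod {A B : Type} [Fintype A] [Fintype B] (F : A × B → ℝ) :
    uavg F = uavg fun a => uavg fun b => F (a, b) := by
  unfold uavg
  rw [Fintype.sum_prod_type, Fintype.card_prod, ← Finset.sum_div, Nat.cast_mul]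
  rw [div_div, mul_comm]

theorem uavg_prod' {A B : Type} [Fintype A] [Fintype B] (F : A × B → ℝ) :
    uavg F = uavg fun b => uavg fun a => F (a, b) := by
  unfold uavg
  rw [Fintype.sum_prod_type_right, Fintype.card_prod, ← Finset.sum_div, Nat.cast_mul]
  rw [div_div]

theorem uavg_const {A : Type} [Fintype A] [Nonempty A] (c : ℝ) :
    uavg (fun _ : A => c) = c := by
  unfold uavg
  rw [Finset.sum_const, nsmul_eq_mul, Finset.card_univ]
  have : (Fintype.card A : ℝ) ≠ 0 := by exact_mod_cast Fintype.card_ne_zero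
  field_simp

theorem uavg_comm {A B : Type} [Fintype A] [Fintype B] (F : A → B → ℝ) :
    uavg (fun a => uavg fun b => F a b) = uavg fun b => uavg fun a => F a b := by
  rw [← uavg_prod (fun p : A × B => F p.1 p.2), uavg_prod']

/-- all functions against injective functions -/
theorem inj_avg {I V : Type} [Fintype I] [DecidableEq I] [Fintype V] [DecidableEq V]
    [Nonempty V] (Φ : (I → V) → ℝ) (hΦ : ∀ z, |Φ z| ≤ 1)
    (hc : Fintype.card I ≤ Fintype.card V) :
    |uavg Φ - uavg (fun y : I ↪ V => Φ y)| ≤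
      2 * (Fintype.card I : ℝ) ^ 2 / Fintype.card V := by
  classical
  set n : ℕ := Fintype.card V with hn
  set k : ℕ := Fintype.card I with hk
  have hn0 : (0 : ℝ) < n := by exact_mod_cast Fintype.card_pos
  have hdesc : ∀ j : ℕ, j ≤ n → (n : ℝ) ^ j * (1 - (j : ℝ) ^ 2 / n) ≤ (n.descFactorial j : ℝ) := by
    intro j
    induction j with
    | zero => intro _; simp
    | succ j ih =>
      intro hj
      have h1 := ih (by omega)
      have h2 : (n.descFactorial (j + 1) : ℝ) = ((n : ℝ) - j) * n.descFactorial j := by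
        rw [Nat.descFactorial_succ, Nat.cast_mul, Nat.cast_sub (by omega)]
      rw [h2]
      have h3 : (0 : ℝ) ≤ (n : ℝ) - j := by
        have : (j : ℝ) ≤ n := by exact_mod_cast (by omega : j ≤ n)
        linarith
      refine le_trans ?_ (mul_le_mul_of_nonneg_left h1 h3)
      have h4 : ((n : ℝ) - j) * ((n : ℝ) ^ j * (1 - (j : ℝ) ^ 2 / n)) =
          (n : ℝ) ^ (j + 1) * ((1 - j / n) * (1 - (j : ℝ) ^ 2 / n)) := by
        field_simp
        ring
      rw [h4]
      refine mul_le_mul_of_nonneg_left ?_ (by positivity)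
      have h5 : (1 - (j : ℝ) / n) * (1 - (j : ℝ) ^ 2 / n) =
          1 - (j + j ^ 2) / n + (j : ℝ) ^ 3 / n ^ 2 := by field_simp; ring
      rw [h5]
      have h6 : (0 : ℝ) ≤ (j : ℝ) ^ 3 / n ^ 2 := by positivity
      have h7 : ((j : ℝ) + j ^ 2) / n ≤ ((j + 1 : ℕ) : ℝ) ^ 2 / n := by
        refine div_le_div_of_nonneg_right ?_ hn0.le
        push_cast
        nlinarith [(Nat.cast_nonneg j : (0 : ℝ) ≤ j)]
      linarith
  have hcardE : Fintype.card (I ↪ V) = n.descFactorial k := by
    rw [Fintype.card_embedding_eq]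
  have hcardF : Fintype.card (I → V) = n ^ k := by
    rw [Fintype.card_fun]
  let s : Finset (I → V) := univ.filter fun z => Function.Injective z
  have hsum : ∑ z ∈ s, Φ z = ∑ y : I ↪ V, Φ y := by
    have h1 : ∑ z ∈ s, Φ z = ∑ z : {f : I → V // Function.Injective f}, Φ z.1 := by
      rw [← Finset.sum_subtype s (p := fun f : I → V => Function.Injective f) (f := Φ)]
      intro x
      simp [s]
    rw [h1]
    exact Fintype.sum_equiv (Equiv.subtypeInjectiveEquivEmbedding I V) _ _ fun x => rfl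
  have hcs : s.card = n.descFactorial k := by
    rw [← hcardE, ← Fintype.card_congr (Equiv.subtypeInjectiveEquivEmbedding I V)]
    rw [Fintype.card_subtype]
  set D : ℝ := (n.descFactorial k : ℝ) with hD
  set T : ℝ := (n : ℝ) ^ k with hT
  have hT0 : 0 < T := by positivity
  have hD0 : 0 < D := by
    rw [hD]
    exact_mod_cast (Nat.descFactorial_pos.2 hc)
  have hDT : (sᶜ.card : ℝ) = T - D := by
    rw [Finset.card_compl, hcs, hcardF, Nat.cast_sub]
    · push_cast; rfl
    · exact Nat.descFactorial_le_pow n k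
  have hDT0 : 0 ≤ T - D := by rw [← hDT]; positivity
  have hall : uavg Φ = (∑ z ∈ s, Φ z + ∑ z ∈ sᶜ, Φ z) / T := by
    unfold uavg
    rw [hcardF, Finset.sum_add_sum_compl]
    push_cast
    rfl
  have hemb : uavg (fun y : I ↪ V => Φ y) = (∑ z ∈ s, Φ z) / D := by
    unfold uavg
    rw [hcardE, hsum]
  set S1 : ℝ := ∑ z ∈ s, Φ z with hS1
  set S2 : ℝ := ∑ z ∈ sᶜ, Φ z with hS2
  have hb1 : |S1| ≤ D := by
    calc |S1| ≤ ∑ z ∈ s, |Φ z| := Finset.abs_sum_le_sum_abs _ _
      _ ≤ ∑ z ∈ s, 1 := Finset.sum_le_sum fun z _ => hΦ z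
      _ = D := by rw [Finset.sum_const, nsmul_eq_mul, mul_one, hcs]
  have hb2 : |S2| ≤ T - D := by
    calc |S2| ≤ ∑ z ∈ sᶜ, |Φ z| := Finset.abs_sum_le_sum_abs _ _
      _ ≤ ∑ z ∈ sᶜ, 1 := Finset.sum_le_sum fun z _ => hΦ z
      _ = T - D := by rw [Finset.sum_const, nsmul_eq_mul, mul_one, hDT]
  rw [hall, hemb]
  have hid : (S1 + S2) / T - S1 / D = S2 / T - S1 * ((T - D) / (T * D)) := by
    field_simp
    ring
  rw [hid]
  have hx1 : |S2 / T| ≤ (T - D) / T := by
    rw [abs_div, abs_of_pos hT0]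
    exact div_le_div_of_nonneg_right hb2 hT0.le
  have hx2 : |S1 * ((T - D) / (T * D))| ≤ (T - D) / T := by
    rw [abs_mul, abs_of_nonneg (by positivity : 0 ≤ (T - D) / (T * D))]
    calc |S1| * ((T - D) / (T * D)) ≤ D * ((T - D) / (T * D)) :=
          mul_le_mul_of_nonneg_right hb1 (by positivity)
      _ = (T - D) / T := by field_simp
  have hx3 : (T - D) / T ≤ (k : ℝ) ^ 2 / n := by
    rw [div_le_iff₀ hT0]
    have := hdesc k hc
    have h8 : (k : ℝ) ^ 2 / n * T = T - (n : ℝ) ^ k * (1 - (k : ℝ) ^ 2 / n) := by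
      rw [hT]; ring
    rw [h8]
    linarith
  calc |S2 / T - S1 * ((T - D) / (T * D))| ≤ |S2 / T| + |S1 * ((T - D) / (T * D))| := abs_sub _ _
    _ ≤ (T - D) / T + (T - D) / T := add_le_add hx1 hx2
    _ ≤ (k : ℝ) ^ 2 / n + (k : ℝ) ^ 2 / n := add_le_add hx3 hx3
    _ = 2 * (k : ℝ) ^ 2 / n := by ring

end avg

theorem pavg_abs {m : ℕ} (A : Finset (Fin m)) (G : (Fin m → Fin m → Prop) → ℝ)
    (hG : ∀ r, |G r| ≤ 1) : |pavg A G| ≤ 1 := by
  classical
  unfold pavg
  have hc : ((univ : Finset (Perm (Fin m))).filter (fun σ => ∀ i, i ∉ A → σ i = i)).card =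
      A.card.factorial := by
    have h1 := Fintype.card_congr (Equiv.Perm.subtypeEquivSubtypePerm (fun i : Fin m => i ∈ A))
    rw [Fintype.card_perm, Fintype.card_coe, Fintype.card_subtype] at h1
    rw [h1]
  have hf : (0 : ℝ) < (A.card.factorial : ℝ) := by exact_mod_cast Nat.factorial_pos _
  rw [abs_div, abs_of_pos hf, div_le_one hf]
  calc |∑ σ ∈ (univ : Finset (Perm (Fin m))).filter (fun σ => ∀ i, i ∉ A → σ i = i),
        G fun i j => σ.SameCycle i j|
      ≤ ∑ σ ∈ (univ : Finset (Perm (Fin m))).filter (fun σ => ∀ i, i ∉ A → σ i = i),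
        |G fun i j => σ.SameCycle i j| := Finset.abs_sum_le_sum_abs _ _
    _ ≤ ∑ σ ∈ (univ : Finset (Perm (Fin m))).filter (fun σ => ∀ i, i ∉ A → σ i = i), 1 :=
        Finset.sum_le_sum fun σ _ => hG _
    _ = (A.card.factorial : ℝ) := by
        rw [Finset.sum_const, nsmul_eq_mul, mul_one, hc]

/-- functions on the index type -/
def ixEquiv (m K : ℕ) (V : Type) : (Ix m K → V) ≃ (Fin m → V) × (Fin K × Bool → V) :=
  Equiv.sumArrowEquivProdArrow _ _ _

/-- pairs -/
def prEquiv (K : ℕ) (V : Type) : (Fin K × Bool → V) ≃ (Fin K → V × V) where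
  toFun z := fun i => (z (i, false), z (i, true))
  invFun x := fun p => if p.2 then (x p.1).2 else (x p.1).1
  left_inv z := by
    funext p
    obtain ⟨i, b⟩ := p
    cases b <;> simp
  right_inv x := by
    funext i
    simp

theorem main (hma : S_match) : S_FA := by
  intro V _ _ _ m K h G hG hcard
  obtain ⟨-, -, -, hm4⟩ := hma
  have hIx : Fintype.card (Ix m K) = m + 2 * K := by
    simp [Ix, Fintype.card_sum, Fintype.card_prod, mul_comm]
  have hIxR : (Fintype.card (Ix m K) : ℝ) = (m : ℝ) + 2 * K := by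
    rw [hIx]; push_cast; ring
  constructor
  · let Φ : (Ix m K → V) → ℝ := fun z =>
      G (rel (prodSw (fun i : Fin K => (z (Sum.inr (i, false)), z (Sum.inr (i, true)))) * h)
        fun i => z (Sum.inl i))
    have h1 : uavg (fun x : Fin K → V × V => uavg fun v : Fin m → V =>
        G (rel (prodSw x * h) v)) = uavg Φ := by
      have e1 := uavg_equiv (ixEquiv m K V) (fun p : (Fin m → V) × (Fin K × Bool → V) =>
        G (rel (prodSw (fun i : Fin K => (p.2 (i, false), p.2 (i, true))) * h) p.1))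
      have e2 : (fun a : Ix m K → V => G (rel (prodSw (fun i : Fin K =>
          ((ixEquiv m K V a).2 (i, false), (ixEquiv m K V a).2 (i, true))) * h)
            (ixEquiv m K V a).1)) = Φ := rfl
      rw [e2] at e1
      rw [e1, uavg_prod']
      exact (uavg_equiv (prEquiv K V) (fun x : Fin K → V × V => uavg fun v : Fin m → V =>
        G (rel (prodSw x * h) v))).symm
    have h2 : uavg (fun y : Ix m K ↪ V => avgM (Ey y) fun α =>
        G (rel (α * h) fun i => y (Sum.inl i))) = uavg (fun y : Ix m K ↪ V => Φ y) := by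
      have e1 : ∀ y : Ix m K ↪ V, avgM (Ey y) (fun α =>
          G (rel (α * h) fun i => y (Sum.inl i))) =
          uavg (fun π : Perm (Fin K × Bool) =>
            Φ ((Equiv.embeddingCongr (Equiv.sumCongr (Equiv.refl (Fin m)) π.symm)
              (Equiv.refl V)) y)) := by
        intro y
        have e2 := hm4 V K (fun p => y (Sum.inr p))
          (fun α => G (rel (α * h) fun i => y (Sum.inl i)))
          (fun p q hpq => Sum.inr_injective (y.injective hpq))
        have e3 : univ.image (fun p : Fin K × Bool => y (Sum.inr p)) = Ey y := rfl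
        rw [e3] at e2
        rw [← e2]
        rfl
      rw [funext e1, uavg_comm]
      have e4 : ∀ π : Perm (Fin K × Bool), uavg (fun y : Ix m K ↪ V =>
          Φ ((Equiv.embeddingCongr (Equiv.sumCongr (Equiv.refl (Fin m)) π.symm)
              (Equiv.refl V)) y)) = uavg (fun y : Ix m K ↪ V => Φ y) := fun π =>
        uavg_equiv (Equiv.embeddingCongr (Equiv.sumCongr (Equiv.refl (Fin m)) π.symm)
              (Equiv.refl V)) (fun y : Ix m K ↪ V => Φ y)
      rw [funext e4, uavg_const]
    rw [h1, h2]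
    have h3 := inj_avg Φ (fun z => hG _) (by rw [hIx]; exact hcard)
    rw [hIxR] at h3
    exact h3
  · let Φ : (Ix m K → V) → ℝ := fun z => pavg (big h K fun i => z (Sum.inl i)) G
    have h1 : uavg (fun v : Fin m → V => pavg (big h K v) G) = uavg Φ := by
      have e1 := uavg_equiv (ixEquiv m K V) (fun p : (Fin m → V) × (Fin K × Bool → V) =>
        pavg (big h K p.1) G)
      have e2 : (fun a : Ix m K → V => pavg (big h K (ixEquiv m K V a).1) G) = Φ := rfl
      rw [e2] at e1
      rw [e1, uavg_prod]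
      congr 1
      funext v
      exact (uavg_const _).symm
    rw [h1]
    have h3 := inj_avg Φ (fun z => pavg_abs _ _ hG) (by rw [hIx]; exact hcard)
    rw [hIxR] at h3
    exact h3

end Pool.Agent.W475.PD.FA
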