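import Mathlib
import Pool.Agent.W805.LR.Stm5

set_option autoImplicit false

namespace Pool.Agent.W475.PD.FF

open Finset Equiv
open Pool.Agent.W805.PD

theorem pow_two_cases {V : Type} (f : Perm V) (x : V) (h : f (f x) = x) (i : ℤ) :
    (f ^ i) x = x ∨ (f ^ i) x = f x := by
  have hinv : f⁻¹ x = f x := by
    rw [Perm.inv_eq_iff_eq]; exact h.symm
  induction i using Int.induction_on with
  | zero => left; simp
  | succ i ih =>
    have e : (f ^ ((i : ℤ) + 1)) x = f ((f ^ (i : ℤ)) x) := by
      rw [add_comm, zpow_add, zpow_one, Perm.mul_apply]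
    rw [e]
    rcases ih with h1 | h1
    · right; rw [h1]
    · left; rw [h1, h]
  | pred i ih =>
    have e : (f ^ (-(i : ℤ) - 1)) x = f⁻¹ ((f ^ (-(i : ℤ))) x) := by
      rw [sub_eq_add_neg, add_comm, zpow_add, zpow_neg_one, Perm.mul_apply]
    rw [e]
    rcases ih with h1 | h1
    · right; rw [h1, hinv]
    · left; rw [h1]; simp

theorem main (htr : S_tr) : S_FF := by
  intro V _ _ m K h y α _
  obtain ⟨-, -, -, -, -, -, -, h8, h9⟩ := htr V
  set A : Finset V := E1y h y α ∪ S1y h y with hA
  have hE : ∀ x ∈ E1y h y α, x ∈ Ey y ∧ ry h y x ≠ x := by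
    intro x hx
    unfold E1y at hx
    rw [mem_filter, mem_sdiff] at hx
    refine ⟨hx.1.1, fun hc => hx.1.2 ?_⟩
    unfold Dy
    rw [mem_filter]
    exact ⟨hx.1.1, hc⟩
  have hAB : A ⊆ Sy y ∪ Ey y := by
    intro x hx
    rw [hA, mem_union] at hx
    rw [mem_union]
    rcases hx with hx | hx
    · exact Or.inr (hE x hx).1
    · unfold S1y at hx
      rw [mem_filter] at hx
      exact Or.inl hx.1
  have hr1 : r1y h y α = tr (ry h y) A := by
    unfold r1y ry
    rw [h8 h A _ hAB]
  unfold Wc
  have hcard : Zy h y = (ry h y).cycleFactorsFinset.card := by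
    unfold Zy
    rw [Perm.cycleType_def, Multiset.card_map]; rfl
  rw [hcard]
  refine card_le_mul_card_image_of_maps_to (f := fun x => (ry h y).cycleOf x) ?_ 2 ?_
  · intro x hx
    rw [mem_filter] at hx
    show (ry h y).cycleOf x ∈ _
    rw [Perm.cycleOf_mem_cycleFactorsFinset_iff, Perm.mem_support]
    exact (hE x hx.1).2
  · intro b _
    rcases (filter (fun a => (ry h y).cycleOf a = b) (filter (fun x =>
        (r1y h y α) ((r1y h y α) x) = x ∧ (r1y h y α) x ∉ S1y h y) (E1y h y α))).eq_empty_or_nonempty
      with h0 | ⟨x, hx⟩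
    · rw [h0]; simp
    · have hsub : filter (fun a => (ry h y).cycleOf a = b) (filter (fun x =>
        (r1y h y α) ((r1y h y α) x) = x ∧ (r1y h y α) x ∉ S1y h y) (E1y h y α)) ⊆
          {x, r1y h y α x} := by
        intro x' hx'
        rw [mem_filter, mem_filter] at hx hx'
        have hsame : (ry h y).cycleOf x = (ry h y).cycleOf x' := hx.2.trans hx'.2.symm
        have hne : ry h y x ≠ x := (hE x hx.1.1).2
        have hsc : (ry h y).SameCycle x x' := by
          have h1 : x ∈ ((ry h y).cycleOf x').support := by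
            rw [← hsame, Perm.mem_support, Perm.cycleOf_apply_self]
            exact hne
          rw [Perm.mem_support_cycleOf_iff] at h1
          exact h1.1.symm
        have hsc2 : (tr (ry h y) A).SameCycle x x' :=
          (h9 (ry h y) A x x' (mem_union_left _ hx.1.1) (mem_union_left _ hx'.1.1)).2 hsc
        rw [← hr1] at hsc2
        obtain ⟨i, hi⟩ := hsc2
        rw [mem_insert, mem_singleton]
        rcases pow_two_cases (r1y h y α) x hx.1.2.1 i with h1 | h1
        · left; rw [← hi, h1]
        · right; rw [← hi, h1]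
      exact (card_le_card hsub).trans card_le_two

end Pool.Agent.W475.PD.FF
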